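import Pool.Agent.Helper5.RO.Goals

/-!
# Project RO (MP_a41896_nt), packet NFB
-/

set_option autoImplicit false

namespace Pool.Agent.Helper40.RO

open MvPolynomial Pool.Agent.Helper5.RO

noncomputable section

/-- subsets of `Fin (n+1)`: with and without `0`. -/
theorem prod_split {S : Type} [CommRing S] {n : ℕ} (h : Finset (Fin (n + 1)) → S) :
    ∏ A : Finset (Fin (n + 1)), h A
      = (∏ A : Finset (Fin n), h (insert 0 (A.map (Fin.succEmb n)))) *
        ∏ A : Finset (Fin n), h (A.map (Fin.succEmb n)) := by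
  classical
  rw [← Finset.prod_filter_mul_prod_filter_not Finset.univ (fun A => (0 : Fin (n + 1)) ∈ A)]
  congr 1
  · refine Finset.prod_nbij' (fun A => Finset.univ.filter (fun i : Fin n => i.succ ∈ A))
      (fun A => insert 0 (A.map (Fin.succEmb n))) ?_ ?_ ?_ ?_ ?_
    · intro A _; exact Finset.mem_univ _
    · intro A _
      rw [Finset.mem_filter]
      exact ⟨Finset.mem_univ _, Finset.mem_insert_self _ _⟩
    · intro A hA
      rw [Finset.mem_filter] at hA
      ext x
      refine Fin.cases ?_ (fun i => ?_) x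
      · simp [hA.2]
      · simp
    · intro A _
      ext x
      simp
    · intro A hA
      rw [Finset.mem_filter] at hA
      congr 1
      ext x
      refine Fin.cases ?_ (fun i => ?_) x
      · simp [hA.2]
      · simp
  · refine Finset.prod_nbij' (fun A => Finset.univ.filter (fun i : Fin n => i.succ ∈ A))
      (fun A => A.map (Fin.succEmb n)) ?_ ?_ ?_ ?_ ?_
    · intro A _; exact Finset.mem_univ _
    · intro A _
      rw [Finset.mem_filter]
      refine ⟨Finset.mem_univ _, ?_⟩
      simp
    · intro A hA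
      rw [Finset.mem_filter] at hA
      ext x
      refine Fin.cases ?_ (fun i => ?_) x
      · simp [hA.2]
      · simp
    · intro A _
      ext x
      simp
    · intro A hA
      rw [Finset.mem_filter] at hA
      congr 1
      ext x
      refine Fin.cases ?_ (fun i => ?_) x
      · simp [hA.2]
      · simp

/-- the value of `cN k N` is the coefficient of the value of `N`. -/
theorem eval_cN {R S : Type} [CommRing R] [CommRing S] (φ : R →+* S) {n : ℕ} (k : ℕ)
    (N : MvPolynomial (Fin n × Fin 3) (Polynomial R)) (v : Fin (n + 1) × Fin 3 → S) :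
    eval₂ φ v (cN k N)
      = (eval₂ (Polynomial.mapRingHom φ) (fun p => Polynomial.C (v (p.1.succ, p.2))) N).coeff k := by
  unfold cN
  rw [← coe_eval₂Hom, map_sum, eval₂_eq, Polynomial.finsetSum_coeff]
  refine Finset.sum_congr rfl fun m _ => ?_
  rw [coe_eval₂Hom, eval₂_monomial]
  have h1 : (m.mapDomain (Prod.map Fin.succ id)).prod (fun p e => v p ^ e)
      = ∏ i ∈ m.support, v (i.1.succ, i.2) ^ m i := by
    rw [Finsupp.prod_mapDomain_index_inj]
    · rfl
    · exact (Fin.succ_injective n).prodMap Function.injective_id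
  rw [h1]
  have h2 : ∏ i ∈ m.support, (Polynomial.C (v (i.1.succ, i.2))) ^ m i
      = Polynomial.C (∏ i ∈ m.support, v (i.1.succ, i.2) ^ m i) := by
    simp only [map_prod, map_pow]
  rw [h2, Polynomial.coeff_mul_C, Polynomial.coe_mapRingHom, Polynomial.coeff_map]

theorem gNFB (hNRM : G_NRM) (hHM : G_HM) (hSWP : G_SWP) : G_NFB := by
  intro R _ n D f N hf hN S _ φ y y'
  obtain ⟨_, hswp⟩ := hSWP R n D f hf
  -- the polynomials `F_A`
  set z : Finset (Fin n) → Fin n → Fin 2 → S := fun A i => if i ∈ A then y i.succ else y' i.succ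
    with hz
  set F : Finset (Fin n) → Polynomial S := fun A => hev (Polynomial.mapRingHom φ) D (swp f)
    (fun i j => Polynomial.C (z A i j)) with hF
  have hval := hN (Polynomial S) (Polynomial.mapRingHom φ)
    (fun i j => Polynomial.C (y i.succ j)) (fun i j => Polynomial.C (y' i.succ j))
  have hval2 : ∏ A : Finset (Fin n), hev (Polynomial.mapRingHom φ) D (swp f)
      (fun i => if i ∈ A then (fun j => Polynomial.C (y i.succ j)) else
        (fun j => Polynomial.C (y' i.succ j))) = ∏ A, F A := by
    refine Finset.prod_congr rfl fun A _ => ?_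
    rw [hF]
    congr 1
    funext i j
    by_cases h : i ∈ A
    · simp [hz, h]
    · simp [hz, h]
  rw [hval2] at hval
  have hsy : (fun p : Fin n × Fin 3 => sy (fun j => Polynomial.C (y p.1.succ j))
      (fun j => Polynomial.C (y' p.1.succ j)) p.2)
      = fun p => Polynomial.C (sy (y p.1.succ) (y' p.1.succ) p.2) := by
    funext p
    obtain ⟨i, j⟩ := p
    fin_cases j <;> simp [sy]
  rw [hsy] at hval
  -- coefficients
  have hcoef : ∀ k, eval₂ φ (fun p => sy (y p.1) (y' p.1) p.2) (cN k N) = (∏ A, F A).coeff k := by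
    intro k
    rw [eval_cN, ← hval]
  -- homogenization
  have hhom : ∀ a : Fin 2 → S, hev1 (2 ^ n * D) (fun k => (∏ A, F A).coeff k) a
      = ∏ A : Finset (Fin n), hev φ D f (Fin.cons a (z A)) := by
    intro a
    have h1 := hHM S (Finset (Fin n)) Finset.univ D F (fun A _ => (hswp S φ (z A)).1) a
    have h2 : (Finset.univ : Finset (Finset (Fin n))).card = 2 ^ n := by
      rw [Finset.card_univ, Fintype.card_finset, Fintype.card_fin]
    rw [h2] at h1
    rw [h1]
    exact Finset.prod_congr rfl fun A _ => (hswp S φ (z A)).2 a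
  -- the value
  have h3 : eval₂ φ (fun p => sy (y p.1) (y' p.1) p.2) (stN D N)
      = nrm (2 ^ n * D) (fun k => (∏ A, F A).coeff k) (y 0 0 * y' 0 0)
        (y 0 0 * y' 0 1 + y 0 1 * y' 0 0) (y 0 1 * y' 0 1) := by
    unfold stN
    rw [← coe_eval₂Hom, hNRM.2 _ _ (eval₂Hom φ
      (fun p : Fin (n + 1) × Fin 3 => sy (y p.1) (y' p.1) p.2))]
    simp only [coe_eval₂Hom, hcoef, eval₂_X]
    simp [sy]
  rw [h3, hNRM.1, hhom, hhom, prod_split]
  congr 1
  · refine Finset.prod_congr rfl fun A _ => ?_
    congr 1
    funext i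
    refine Fin.cases ?_ (fun i => ?_) i
    · simp
    · simp [hz]
  · refine Finset.prod_congr rfl fun A _ => ?_
    congr 1
    funext i
    refine Fin.cases ?_ (fun i => ?_) i
    · simp
    · simp [hz]

end

end Pool.Agent.Helper40.RO
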