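import Pool.Agent.Helper5.RO.Goals

/-!
# Project RO (MP_a41896_nt), packet SWP
-/

set_option autoImplicit false

namespace Pool.Agent.Helper40.RO

open MvPolynomial Pool.Agent.Helper5.RO

noncomputable section

section

variable {R S : Type} [CommRing R] [CommRing S]

/-- weight of an exponent. -/
def wt {n : ℕ} (D : ℕ) (y : Fin n → Fin 2 → S) (m : Fin n →₀ ℕ) : S :=
  ∏ i, (y i 0 ^ m i * y i 1 ^ (D - m i))

theorem hev_eq_sum (φ : R →+* S) {n : ℕ} (D : ℕ) (f : MvPolynomial (Fin n) R)
    (y : Fin n → Fin 2 → S) : hev φ D f y = ∑ m ∈ f.support, φ (coeff m f) * wt D y m := rfl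

theorem hev_of_subset (φ : R →+* S) {n : ℕ} (D : ℕ) (f : MvPolynomial (Fin n) R)
    (y : Fin n → Fin 2 → S) (s : Finset (Fin n →₀ ℕ)) (hs : f.support ⊆ s) :
    hev φ D f y = ∑ m ∈ s, φ (coeff m f) * wt D y m := by
  rw [hev_eq_sum]
  refine Finset.sum_subset hs fun m _ hm => ?_
  rw [notMem_support_iff.1 hm, map_zero, zero_mul]

theorem hev_add (φ : R →+* S) {n : ℕ} (D : ℕ) (f g : MvPolynomial (Fin n) R)
    (y : Fin n → Fin 2 → S) : hev φ D (f + g) y = hev φ D f y + hev φ D g y := by
  classical
  have h1 := hev_of_subset φ D (f + g) y (f.support ∪ g.support) support_add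
  have h2 := hev_of_subset φ D f y (f.support ∪ g.support) Finset.subset_union_left
  have h3 := hev_of_subset φ D g y (f.support ∪ g.support) Finset.subset_union_right
  rw [h1, h2, h3, ← Finset.sum_add_distrib]
  refine Finset.sum_congr rfl fun m _ => ?_
  rw [coeff_add, map_add, add_mul]

theorem hev_zero (φ : R →+* S) {n : ℕ} (D : ℕ) (y : Fin n → Fin 2 → S) :
    hev φ D (0 : MvPolynomial (Fin n) R) y = 0 := by
  rw [hev_eq_sum, support_zero, Finset.sum_empty]

theorem hev_monomial (φ : R →+* S) {n : ℕ} (D : ℕ) (m : Fin n →₀ ℕ) (c : R)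
    (y : Fin n → Fin 2 → S) : hev φ D (monomial m c) y = φ c * wt D y m := by
  classical
  rw [hev_of_subset φ D _ y {m} support_monomial_subset, Finset.sum_singleton, coeff_monomial,
    if_pos rfl]

theorem hev_sum {ι : Type} (φ : R →+* S) {n : ℕ} (D : ℕ) (s : Finset ι)
    (f : ι → MvPolynomial (Fin n) R) (y : Fin n → Fin 2 → S) :
    hev φ D (∑ i ∈ s, f i) y = ∑ i ∈ s, hev φ D (f i) y := by
  classical
  induction s using Finset.induction_on with
  | empty => simp [hev_zero]
  | insert a s ha ih => rw [Finset.sum_insert ha, Finset.sum_insert ha, hev_add, ih]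

theorem swp_eq {n : ℕ} (f : MvPolynomial (Fin (n + 1)) R) :
    swp f = ∑ s ∈ f.support, monomial s.tail (Polynomial.monomial (s 0) (coeff s f)) := by
  unfold swp
  rw [eval₂_eq']
  refine Finset.sum_congr rfl fun s _ => ?_
  rw [Fin.prod_univ_succ, Fin.cons_zero]
  simp only [Fin.cons_succ, RingHom.comp_apply]
  rw [← mul_assoc, ← map_pow, ← map_mul, Polynomial.C_mul_X_pow_eq_monomial, monomial_eq]
  congr 1
  rw [Finsupp.prod_fintype _ _ (fun i => pow_zero _)]
  rfl

end

theorem gSWP : G_SWP := by
  intro R _ n D f hf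
  have hs : ∀ s ∈ f.support, ∀ i, s i ≤ D := fun s hs i => (le_degreeOf_of_mem_support i hs).trans (hf i)
  refine ⟨fun i => ?_, fun S _ φ y => ?_⟩
  · rw [swp_eq]
    refine (degreeOf_sum_le _ _ _).trans (Finset.sup_le fun s h => ?_)
    rw [degreeOf_le_iff]
    intro m hm
    have hm2 := Finset.mem_singleton.1 (support_monomial_subset hm)
    rw [hm2]
    exact hs s h _
  · have h1 : hev (Polynomial.mapRingHom φ) D (swp f) (fun i j => Polynomial.C (y i j))
        = ∑ s ∈ f.support, Polynomial.monomial (s 0) (φ (coeff s f) * wt D y s.tail) := by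
      rw [swp_eq, hev_sum]
      refine Finset.sum_congr rfl fun s _ => ?_
      rw [hev_monomial]
      have h2 : wt D (fun i j => Polynomial.C (y i j)) s.tail = Polynomial.C (wt D y s.tail) := by
        unfold wt
        simp only [map_prod, map_mul, map_pow]
      rw [h2, Polynomial.coe_mapRingHom, Polynomial.map_monomial, Polynomial.monomial_mul_C]
    refine ⟨?_, fun a => ?_⟩
    · rw [h1]
      refine (Polynomial.natDegree_sum_le _ _).trans ?_
      rw [Finset.fold_max_le]
      refine ⟨Nat.zero_le _, fun s h => ?_⟩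
      exact (Polynomial.natDegree_monomial_le _).trans (hs s h 0)
    · rw [h1, hev_eq_sum]
      unfold hev1
      simp only [Polynomial.finsetSum_coeff, Polynomial.coeff_monomial, Finset.sum_mul]
      rw [Finset.sum_comm]
      refine Finset.sum_congr rfl fun s h => ?_
      rw [Finset.sum_eq_single (s 0)]
      · rw [if_pos rfl]
        unfold wt
        rw [Fin.prod_univ_succ]
        simp only [Fin.cons_zero, Fin.cons_succ, Finsupp.tail_apply]
        ring
      · intro k _ hk
        rw [if_neg (fun h => hk h.symm), zero_mul, zero_mul]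
      · intro h3
        exact absurd (Finset.mem_range.2 (Nat.lt_succ_of_le (hs s h 0))) h3

end

end Pool.Agent.Helper40.RO
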